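import Pool.Agent.H459R3.NS.Lp
import Pool.Agent.W221.NS.Stm

/-!
The pressure of a smooth periodic vector field on the torus is bounded in L2 by the enstrophy.
-/

open MeasureTheory Set Filter Topology
open scoped ContDiff ENNReal NNReal

namespace Pool.Agent.W962.MD

open H459R3.NS W221.NS

theorem sp_const (c : ℝ) : SP (fun _ : V => c) := ⟨contDiff_const, fun _ _ => rfl⟩

theorem pd_sub_const (f : V → ℝ) (c : ℝ) (j : Fin 3) : pd j (fun x => f x - c) = pd j f := by
  funext x
  unfold pd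
  rw [fderiv_sub_const]

theorem int_sub_mean {f : V → ℝ} (hf : SP f) : ∫ x in cube, (f x - ∫ y in cube, f y) = 0 := by
  rw [integral_sub hf.int (sp_const _).int, setIntegral_const]
  simp [Measure.real, volume_cube]

theorem eLpNorm_four {f : V → ℝ} (hf : Continuous f) :
    eLpNorm f 4 (volume.restrict cube)
      = ENNReal.ofReal ((∫ x in cube, (f x ^ 2) ^ 2) ^ (1 / 4 : ℝ)) := by
  rw [eLpNorm_eq_lintegral_rpow_enorm_toReal (by norm_num) (by norm_num)]
  have e1 : (4 : ℝ≥0∞).toReal = 4 := by norm_num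
  have e2 : ∀ x, ‖f x‖ₑ ^ (4 : ℝ) = ENNReal.ofReal ((f x ^ 2) ^ 2) := by
    intro x
    rw [← ofReal_norm, ENNReal.ofReal_rpow_of_nonneg (norm_nonneg _) (by norm_num)]
    congr 1
    rw [Real.norm_eq_abs]
    have : |f x| ^ (4 : ℝ) = |f x| ^ (4 : ℕ) := by norm_cast
    rw [this, ← sq_abs (f x)]
    ring
  simp_rw [e1, e2]
  rw [← ofReal_integral_eq_lintegral_ofReal (f := fun x => (f x ^ 2) ^ 2)
    (integrableOn_cube ((hf.pow 2).pow 2)) (Eventually.of_forall fun x => sq_nonneg _),
    ENNReal.ofReal_rpow_of_nonneg (integral_nonneg fun x => sq_nonneg _) (by norm_num)]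

theorem int_four_le : ∃ C : ℝ, 0 ≤ C ∧ ∀ g : V → ℝ, SP g → ∫ x in cube, g x = 0 →
    ∫ x in cube, (g x ^ 2) ^ 2 ≤ C * (∑ j, ∫ x in cube, pd j g x ^ 2) ^ 2 := by
  obtain ⟨C, hC0, hC⟩ := sobolev
  refine ⟨4 * C ^ 4, by positivity, fun g hg h0 => ?_⟩
  set G := ∑ j, ∫ x in cube, pd j g x ^ 2 with hG
  have hG0 : 0 ≤ G := Finset.sum_nonneg fun _ _ => integral_nonneg fun _ => sq_nonneg _
  have hp : ∫ x in cube, g x ^ 2 ≤ G := by
    have := poincare hg h0
    rw [← nrm_sq, hG, ← grd_sq]
    exact pow_le_pow_left₀ (nrm_nonneg _) this 2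
  have : IsProbabilityMeasure (volume.restrict cube : Measure V) := by
    constructor
    rw [Measure.restrict_apply_univ, volume_cube]
  have h1 : eLpNorm g 4 (volume.restrict cube) ≤ eLpNorm g 6 (volume.restrict cube) :=
    eLpNorm_le_eLpNorm_of_exponent_le (by norm_num) hg.cont.aestronglyMeasurable
  have h2 := h1.trans (hC g hg)
  rw [eLpNorm_four hg.cont] at h2
  set I := ∫ x in cube, (g x ^ 2) ^ 2 with hI
  have hI0 : 0 ≤ I := integral_nonneg fun _ => sq_nonneg _
  have h3 : I ^ (1 / 4 : ℝ) ≤ C * Real.sqrt (G + ∫ x in cube, g x ^ 2) :=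
    (ENNReal.ofReal_le_ofReal_iff (by positivity)).1 h2
  have h4 : I ^ (1 / 4 : ℝ) ≤ C * Real.sqrt (2 * G) := by
    refine h3.trans (mul_le_mul_of_nonneg_left (Real.sqrt_le_sqrt ?_) hC0)
    linarith
  have h5 : (I ^ (1 / 4 : ℝ)) ^ 4 ≤ (C * Real.sqrt (2 * G)) ^ 4 :=
    pow_le_pow_left₀ (by positivity) h4 4
  have h6 : (I ^ (1 / 4 : ℝ)) ^ 4 = I := by
    rw [← Real.rpow_natCast, ← Real.rpow_mul hI0]
    norm_num
  have h7 : (C * Real.sqrt (2 * G)) ^ 4 = 4 * C ^ 4 * G ^ 2 := by
    have h8 : Real.sqrt (2 * G) ^ 2 = 2 * G := Real.sq_sqrt (by positivity)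
    calc (C * Real.sqrt (2 * G)) ^ 4 = C ^ 4 * (Real.sqrt (2 * G) ^ 2) ^ 2 := by ring
      _ = _ := by rw [h8]; ring
  rw [h6, h7] at h5
  exact h5

/-- Fourier coefficients of a mean zero solution of the Poisson equation. -/
theorem int_sq_le_of_lap {f : V → ℝ} (hf : SP f) (h0 : ∫ x in cube, f x = 0)
    {w : Fin 3 → V → ℝ} (hw : ∀ i, SP (w i))
    (he : ∀ x, -lap f x = ∑ i, ∑ j, pd i (pd j (fun y => w i y * w j y)) x) :
    ∫ x in cube, f x ^ 2 ≤ 9 * ∑ i, ∑ j, ∫ x in cube, (w i x * w j x) ^ 2 := by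
  have hww : ∀ i j, SP (fun y => w i y * w j y) := fun i j => (hw i).mul (hw j)
  have hz : fr f 0 = 0 := by
    unfold fr fc
    simp_rw [neg_zero, ee_zero, one_mul]
    rw [integral_complex_ofReal, h0]
    simp
  -- the equation for the coefficients
  have hlin : ∀ {ι : Type} (s : Finset ι) (g : ι → V → ℝ), (∀ i ∈ s, SP (g i)) → ∀ k,
      fr (fun x => ∑ i ∈ s, g i x) k = ∑ i ∈ s, fr (g i) k := by
    intro ι s g hg k
    unfold fr fc
    have hi : ∀ i ∈ s, IntegrableOn (fun x => ee (-k) x * (g i x : ℂ)) cube := fun i hi =>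
      integrableOn_cube ((ee_continuous (-k)).mul (Complex.continuous_ofReal.comp (hg i hi).cont))
    have h2 := integral_finsetSum (μ := volume.restrict cube) s hi
    show ∫ x in cube, ee (-k) x * ((∑ i ∈ s, g i x : ℝ) : ℂ)
      = ∑ i ∈ s, ∫ x in cube, ee (-k) x * (g i x : ℂ)
    rw [← h2]
    congr 1
    funext x
    push_cast
    rw [Finset.mul_sum]
  have hk1 : ∀ k, fr (lap f) k = ∑ j, D j (D j (fr f)) k := by
    intro k
    have : fr (lap f) k = ∑ j, fr (pd j (pd j f)) k :=
      hlin Finset.univ (fun j => pd j (pd j f)) (fun j _ => (hf.pd j).pd j) k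
    rw [this]
    refine Finset.sum_congr rfl fun j _ => ?_
    rw [fr_pd (hf.pd j), fr_pd hf]
  have hk2 : ∀ k, fr (fun x => -lap f x) k
      = ∑ i, ∑ j, D i (D j (fr (fun y => w i y * w j y))) k := by
    intro k
    have e1 : (fun x => -lap f x) = fun x => ∑ i, ∑ j, pd i (pd j (fun y => w i y * w j y)) x :=
      funext he
    rw [e1, hlin Finset.univ (fun i x => ∑ j, pd i (pd j (fun y => w i y * w j y)) x)
      (fun i _ => SP.sum fun j _ => ((hww i j).pd j).pd i) k]
    refine Finset.sum_congr rfl fun i _ => ?_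
    rw [hlin Finset.univ (fun j x => pd i (pd j (fun y => w i y * w j y)) x)
      (fun j _ => ((hww i j).pd j).pd i) k]
    refine Finset.sum_congr rfl fun j _ => ?_
    have : (fun x => pd i (pd j (fun y => w i y * w j y)) x)
        = pd i (pd j (fun y => w i y * w j y)) := rfl
    rw [this, fr_pd ((hww i j).pd j), fr_pd (hww i j)]
  have hk3 : ∀ k, fr (fun x => -lap f x) k = - fr (lap f) k := by
    intro k
    unfold fr fc
    rw [← integral_neg]
    congr 1
    funext x
    push_cast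
    ring
  have hb : ∀ k, ‖fr f k‖ ≤ ∑ i, ∑ j, ‖fr (fun y => w i y * w j y) k‖ := by
    intro k
    by_cases hk : k = 0
    · rw [hk, hz, norm_zero]
      exact Finset.sum_nonneg fun _ _ => Finset.sum_nonneg fun _ _ => norm_nonneg _
    · have e2 := hk2 k
      rw [hk3, hk1] at e2
      simp only [D] at e2
      have e3 : (∑ j, (k j : ℂ) ^ 2) * fr f k
          = - ∑ i, ∑ j, (k i : ℂ) * (k j : ℂ) * fr (fun y => w i y * w j y) k := by
        have hpi : (2 * (Real.pi : ℂ) * Complex.I) ^ 2 ≠ 0 := by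
          refine pow_ne_zero 2 (mul_ne_zero (mul_ne_zero two_ne_zero ?_) Complex.I_ne_zero)
          exact_mod_cast Real.pi_ne_zero
        apply mul_left_cancel₀ hpi
        have l1 : (2 * (Real.pi : ℂ) * Complex.I) ^ 2 * ((∑ j, (k j : ℂ) ^ 2) * fr f k)
            = ∑ j, 2 * ↑Real.pi * Complex.I * ↑(k j) * (2 * ↑Real.pi * Complex.I * ↑(k j) * fr f k) := by
          rw [Finset.sum_mul, Finset.mul_sum]
          refine Finset.sum_congr rfl fun j _ => ?_
          ring
        have l2 : (2 * (Real.pi : ℂ) * Complex.I) ^ 2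
              * (∑ i, ∑ j, (k i : ℂ) * (k j : ℂ) * fr (fun y => w i y * w j y) k)
            = ∑ i, ∑ j, 2 * ↑Real.pi * Complex.I * ↑(k i) * (2 * ↑Real.pi * Complex.I * ↑(k j)
                * fr (fun y => w i y * w j y) k) := by
          rw [Finset.mul_sum]
          refine Finset.sum_congr rfl fun i _ => ?_
          rw [Finset.mul_sum]
          refine Finset.sum_congr rfl fun j _ => ?_
          ring
        rw [l1, mul_neg, l2, ← e2, neg_neg]
      set K : ℝ := ∑ j, (k j : ℝ) ^ 2 with hK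
      have hK0 : 0 < K := by
        obtain ⟨j, hj⟩ : ∃ j, k j ≠ 0 := by
          by_contra hcon
          push Not at hcon
          exact hk (funext hcon)
        have : 0 < (k j : ℝ) ^ 2 := by
          have : (k j : ℝ) ≠ 0 := by exact_mod_cast hj
          positivity
        exact this.trans_le (Finset.single_le_sum (f := fun j => (k j : ℝ) ^ 2)
          (fun _ _ => sq_nonneg _) (Finset.mem_univ j))
      have e4 : K * ‖fr f k‖ ≤ K * ∑ i, ∑ j, ‖fr (fun y => w i y * w j y) k‖ := by
        have e5 : K * ‖fr f k‖ = ‖(∑ j, (k j : ℂ) ^ 2) * fr f k‖ := by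
          rw [norm_mul]
          congr 1
          have : (∑ j, (k j : ℂ) ^ 2) = ((K : ℝ) : ℂ) := by
            rw [hK]; push_cast; rfl
          rw [this, Complex.norm_real, Real.norm_eq_abs, abs_of_pos hK0]
        rw [e5, e3, norm_neg, Finset.mul_sum]
        refine (norm_sum_le _ _).trans (Finset.sum_le_sum fun i _ => ?_)
        rw [Finset.mul_sum]
        refine (norm_sum_le _ _).trans (Finset.sum_le_sum fun j _ => ?_)
        rw [norm_mul]
        refine mul_le_mul_of_nonneg_right ?_ (norm_nonneg _)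
        rw [norm_mul, Complex.norm_intCast, Complex.norm_intCast]
        have s1 : (k i : ℝ) ^ 2 ≤ K := Finset.single_le_sum (f := fun j => (k j : ℝ) ^ 2)
          (fun _ _ => sq_nonneg _) (Finset.mem_univ i)
        have s2 : (k j : ℝ) ^ 2 ≤ K := Finset.single_le_sum (f := fun j => (k j : ℝ) ^ 2)
          (fun _ _ => sq_nonneg _) (Finset.mem_univ j)
        have s3 := two_mul_le_add_sq |(k i : ℝ)| |(k j : ℝ)|
        rw [sq_abs, sq_abs] at s3
        linarith
      exact le_of_mul_le_mul_left e4 hK0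
  have hb2 : ∀ k, ‖fr f k‖ ^ 2 ≤ 9 * ∑ i, ∑ j, ‖fr (fun y => w i y * w j y) k‖ ^ 2 := by
    intro k
    refine (pow_le_pow_left₀ (norm_nonneg _) (hb k) 2).trans ?_
    rw [← Finset.sum_product', ← Finset.sum_product']
    refine (sq_sum_le_card_mul_sum_sq).trans (le_of_eq ?_)
    simp
  rw [← n2_fr hf, n2_sq]
  have hs : ∀ i j, Summable fun k => ‖fr (fun y => w i y * w j y) k‖ ^ 2 := fun i j =>
    summable_sq (rap_fr (hww i j)).summable
  have e6 : ∀ i j, ∫ x in cube, (w i x * w j x) ^ 2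
      = ∑' k, ‖fr (fun y => w i y * w j y) k‖ ^ 2 := by
    intro i j
    rw [← n2_sq, n2_fr (hww i j)]
  simp_rw [e6]
  have e7 : ∑ i, ∑ j, ∑' k, ‖fr (fun y => w i y * w j y) k‖ ^ 2
      = ∑' k, ∑ i, ∑ j, ‖fr (fun y => w i y * w j y) k‖ ^ 2 := by
    rw [Summable.tsum_finsetSum fun i _ => summable_sum fun j _ => hs i j]
    refine Finset.sum_congr rfl fun i _ => ?_
    rw [Summable.tsum_finsetSum fun j _ => hs i j]
  rw [e7, ← tsum_mul_left]
  exact Summable.tsum_le_tsum hb2 (summable_sq (rap_fr hf).summable)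
    ((summable_sum fun i _ => summable_sum fun j _ => hs i j).mul_left 9)

theorem t_TPRESS : S_TPRESS := by
  obtain ⟨C, hC0, hC⟩ := int_four_le
  refine ⟨81 * (C + 1), by positivity, fun u p hu hp hdiv hlap => ?_⟩
  have hus : ∀ i, SP (fun y => u y i) := fun i =>
    ⟨(contDiff_pi.1 hu.1) i, fun j x => by simp only [hu.2 j x]⟩
  set m : Fin 3 → ℝ := fun i => ∫ y in cube, u y i with hm
  set w : Fin 3 → V → ℝ := fun i x => u x i - m i with hw
  have hws : ∀ i, SP (w i) := fun i => (hus i).sub (sp_const _)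
  have hpd : ∀ i j, pd j (w i) = pd j (fun y => u y i) := fun i j => pd_sub_const _ _ _
  have hw0 : ∀ i, ∫ x in cube, w i x = 0 := fun i => int_sub_mean (hus i)
  set f : V → ℝ := fun x => p x - ∫ y in cube, p y with hf
  have hfs : SP f := hp.sub (sp_const _)
  have hf0 : ∫ x in cube, f x = 0 := int_sub_mean hp
  have hdw : ∀ x, ∑ i, pd i (w i) x = 0 := by
    intro x
    simp_rw [hpd]
    exact hdiv x
  have hlapf : ∀ x, lap f x = lap p x := by
    intro x
    unfold lap
    refine Finset.sum_congr rfl fun j _ => ?_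
    rw [show pd j f = pd j p from pd_sub_const _ _ _]
  -- u = w + m in the nonlinear term
  have key : ∀ i j x, pd i (pd j (fun y => u y i * u y j)) x
      = pd i (pd j (fun y => w i y * w j y)) x + m i * pd i (pd j (w j)) x
        + m j * pd i (pd j (w i)) x := by
    intro i j x
    have e1 : pd j (fun y => u y i * u y j)
        = fun y => pd j (fun y => w i y * w j y) y + m i * pd j (w j) y + m j * pd j (w i) y := by
      funext y
      rw [pd_mul (hus i) (hus j), pd_mul (hws i) (hws j), hpd, hpd]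
      simp only [hw]
      ring
    rw [e1, pd_add3 (((hws i).mul (hws j)).pd j) ((sp_const (m i)).mul ((hws j).pd j))
      ((sp_const (m j)).mul ((hws i).pd j)) i x,
      pd_mul (sp_const (m i)) ((hws j).pd j) i x, pd_mul (sp_const (m j)) ((hws i).pd j) i x]
    have e2 : ∀ c : ℝ, pd i (fun _ : V => c) x = 0 := by
      intro c
      unfold pd
      simp
    rw [e2, e2]
    ring
  have he : ∀ x, -lap f x = ∑ i, ∑ j, pd i (pd j (fun y => w i y * w j y)) x := by
    intro x
    rw [hlapf, hlap x]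
    unfold ddq
    simp_rw [key, Finset.sum_add_distrib]
    have z1 : ∑ i, ∑ j, m i * pd i (pd j (w j)) x = 0 := by
      refine Finset.sum_eq_zero fun i _ => ?_
      rw [← Finset.mul_sum, ← pd_sum (fun j _ => (hws j).pd j) i x]
      have : (fun y => ∑ j, pd j (w j) y) = fun _ => 0 := funext hdw
      rw [this]
      unfold pd
      simp
    have z2 : ∑ i, ∑ j, m j * pd i (pd j (w i)) x = 0 := by
      rw [Finset.sum_comm]
      refine Finset.sum_eq_zero fun j _ => ?_
      rw [← Finset.mul_sum]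
      have e3 : ∀ i, pd i (pd j (w i)) x = pd j (pd i (w i)) x := fun i => by
        rw [pd_comm (hws i) i j]
      simp_rw [e3]
      rw [← pd_sum (fun i _ => (hws i).pd i) j x]
      have : (fun y => ∑ i, pd i (w i) y) = fun _ => 0 := funext hdw
      rw [this]
      unfold pd
      simp
    rw [z1, z2]
    ring
  have h1 := int_sq_le_of_lap hfs hf0 hws he
  have hE : ∀ i, ∑ j, ∫ x in cube, pd j (w i) x ^ 2 ≤ enstrophy u := by
    intro i
    unfold enstrophy
    simp_rw [hpd]
    exact Finset.single_le_sum (f := fun i => ∑ j, ∫ x in cube, pd j (fun y => u y i) x ^ 2)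
      (fun _ _ => Finset.sum_nonneg fun _ _ => integral_nonneg fun _ => sq_nonneg _)
      (Finset.mem_univ i)
  have h4 : ∀ i, ∫ x in cube, (w i x ^ 2) ^ 2 ≤ C * enstrophy u ^ 2 := by
    intro i
    refine (hC (w i) (hws i) (hw0 i)).trans (mul_le_mul_of_nonneg_left ?_ hC0)
    exact pow_le_pow_left₀ (Finset.sum_nonneg fun _ _ => integral_nonneg fun _ => sq_nonneg _)
      (hE i) 2
  have h5 : ∀ i j, ∫ x in cube, (w i x * w j x) ^ 2 ≤ C * enstrophy u ^ 2 := by
    intro i j
    have a1 : ∫ x in cube, (w i x * w j x) ^ 2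
        ≤ ∫ x in cube, ((1 / 2) * (w i x ^ 2) ^ 2 + (1 / 2) * (w j x ^ 2) ^ 2) := by
      refine integral_mono (integrableOn_cube (((hws i).cont.mul (hws j).cont).pow 2))
        (integrableOn_cube ((continuous_const.mul (((hws i).cont.pow 2).pow 2)).add
          (continuous_const.mul (((hws j).cont.pow 2).pow 2)))) fun x => ?_
      have := two_mul_le_add_sq (w i x ^ 2) (w j x ^ 2)
      simp only
      nlinarith
    have i1 : IntegrableOn (fun x => (1 / 2 : ℝ) * (w i x ^ 2) ^ 2) cube :=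
      integrableOn_cube (continuous_const.mul (((hws i).cont.pow 2).pow 2))
    have i2 : IntegrableOn (fun x => (1 / 2 : ℝ) * (w j x ^ 2) ^ 2) cube :=
      integrableOn_cube (continuous_const.mul (((hws j).cont.pow 2).pow 2))
    rw [integral_add i1 i2, integral_const_mul, integral_const_mul] at a1
    have := h4 i
    have := h4 j
    linarith
  have h6 : ∑ i : Fin 3, ∑ j : Fin 3, ∫ x in cube, (w i x * w j x) ^ 2
      ≤ ∑ _i : Fin 3, ∑ _j : Fin 3, C * enstrophy u ^ 2 :=
    Finset.sum_le_sum fun i _ => Finset.sum_le_sum fun j _ => h5 i j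
  simp only [Finset.sum_const, Finset.card_univ, Fintype.card_fin, nsmul_eq_mul] at h6
  have h7 : 0 ≤ enstrophy u ^ 2 := sq_nonneg _
  push_cast at h6
  show ∫ x in cube, f x ^ 2 ≤ 81 * (C + 1) * enstrophy u ^ 2
  nlinarith

end Pool.Agent.W962.MD
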